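import Pool.Agent.H41.SS.Targets

/-!
# MP_c62aed_lc, board ss_modules, row HAL: representatives of the living clauses
-/

set_option autoImplicit false

open Finset Pool.Agent.H97.RK Pool.Agent.H97.RL Pool.Agent.H41.SS

namespace Pool.Agent.H35.SSM

theorem pf_HAL : T_HAL := by
  intro n k m F D b y A W J hSt v S hS hal
  classical
  let t : {c // c ∈ S} → Finset (Fin n) := fun c => vF F c.1 \ insert v (A ∪ W)
  have hall : ∀ s : Finset {c // c ∈ S}, s.card ≤ (s.biUnion t).card := by
    intro s
    rcases Nat.eq_zero_or_pos s.card with h0 | h0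
    · rw [h0]
      exact Nat.zero_le _
    have h1 : (s.map (Function.Embedding.subtype _)).card = s.card := Finset.card_map _
    have h2 : s.card ≤ Fintype.card {c // c ∈ S} := Finset.card_le_univ s
    rw [Fintype.card_coe] at h2
    have h3 := hSt.inv (s.map (Function.Embedding.subtype _)) (by rw [h1]; exact h2.trans hS)
      (by
        intro c hc
        rw [Finset.mem_map] at hc
        obtain ⟨c, -, rfl⟩ := hc
        exact hal c.1 c.2)
    rw [h1] at h3
    have h4 : VS F (s.map (Function.Embedding.subtype _)) \ (A ∪ W) ⊆ insert v (s.biUnion t) := by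
      intro u hu
      rw [Finset.mem_sdiff] at hu
      obtain ⟨hu1, hu2⟩ := hu
      unfold VS at hu1
      rw [Finset.mem_biUnion] at hu1
      obtain ⟨c, hc, huc⟩ := hu1
      rw [Finset.mem_map] at hc
      obtain ⟨c, hc, rfl⟩ := hc
      rw [Finset.mem_insert]
      by_cases hv : u = v
      · exact Or.inl hv
      · refine Or.inr (Finset.mem_biUnion.2 ⟨c, hc, Finset.mem_sdiff.2 ⟨huc, ?_⟩⟩)
        intro h5
        rcases Finset.mem_insert.1 h5 with h6 | h6
        · exact hv h6
        · exact hu2 h6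
    have h5 := (Finset.card_le_card h4).trans (Finset.card_insert_le _ _)
    omega
  obtain ⟨f, hf, hft⟩ := (Finset.all_card_le_biUnion_card_iff_exists_injective t).1 hall
  have hi : ∀ c : {c // c ∈ S}, ∃ i, (F c.1 i).1 = f c := by
    intro c
    have h1 := (Finset.mem_sdiff.1 (hft c)).1
    unfold vF at h1
    rw [Finset.mem_image] at h1
    obtain ⟨i, _, hi⟩ := h1
    exact ⟨i, hi⟩
  choose i hi using hi
  have hB : ∀ c, f c ∉ insert v (A ∪ W) := fun c => (Finset.mem_sdiff.1 (hft c)).2
  refine ⟨fun u => if h : ∃ c, f c = u then (F h.choose.1 (i h.choose)).2 else y u,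
    fun u hu => ?_, fun c hc => ?_⟩
  · have h : ¬ ∃ c, f c = u := by
      rintro ⟨c, rfl⟩
      exact hB c hu
    simp only [dif_neg h]
  · refine ⟨i ⟨c, hc⟩, Finset.mem_univ _, ?_⟩
    have h1 := hi ⟨c, hc⟩
    change (F c (i ⟨c, hc⟩)).1 = _ at h1
    rw [h1]
    have h : ∃ c', f c' = f ⟨c, hc⟩ := ⟨_, rfl⟩
    beta_reduce
    rw [dif_pos h]
    have h2 : h.choose = ⟨c, hc⟩ := hf h.choose_spec
    rw [h2]

end Pool.Agent.H35.SSM
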