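import Pool.Agent.H41.SS.Targets

/-!
# MP_c62aed_lc, board ss_modules, row TAS: restrictions
-/

set_option autoImplicit false

open Finset Pool.Agent.H97.RK Pool.Agent.H97.RL Pool.Agent.H41.SS

namespace Pool.Agent.H35.SSM

theorem pf_TAS (hINI : T_INI) (hASK : Pool.Agent.H41.SS.T_ASK) : T_TAS := by
  classical
  intro n k m F D d w hD hDw hEx hG x A hA
  have key : ∀ A : Finset (Fin n), A.card + (w + d) ≤ n →
      ∃ (y : Fin n → Bool) (W : Finset (Fin n)) (J : Finset (Fin m)),
        Sta F D 0 y A W J ∧ ∀ u, u ∉ W → y u = x u := by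
    intro A
    induction A using Finset.induction_on with
    | empty =>
      intro _
      exact ⟨x, ∅, ∅, hINI n k m F D hD hEx x, fun _ _ => rfl⟩
    | insert v A hv ih =>
      intro hc
      have h1 : A.card ≤ (insert v A).card := Finset.card_le_card (Finset.subset_insert _ _)
      obtain ⟨y, W, J, hSt, hyx⟩ := ih (by omega)
      obtain ⟨y', W', J', -, -, h2, h3⟩ := hASK n k m F D d w 0 (by omega) x y A W J v (hG x) hSt
        hyx (by omega)
      exact ⟨y', W', J', h3, h2⟩
  obtain ⟨y, W, J, hSt, hyx⟩ := key A hA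
  refine ⟨y, W, J, hSt, ?_⟩
  have h1 : (univ.filter fun u => y u ≠ x u) ⊆ W := by
    intro u hu
    rw [Finset.mem_filter] at hu
    by_contra h
    exact hu.2 (hyx u h)
  have h2 : dst y x ≤ W.card := by
    unfold dst
    convert Finset.card_le_card h1
  have h3 := hSt.lt
  have h4 := hSt.crd
  omega

end Pool.Agent.H35.SSM
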